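import Pool.Agent.Helper29.SH.Goals

set_option autoImplicit false

namespace Pool.Agent.Helper36.SH

open Subgroup Pool.H83Shunkov Pool.Agent.Helper29.SH

theorem mem_lfRad_of_finite_tor {K : Type} [Group K] (hfin : {g : K | IsOfFinOrder g}.Finite)
    (k : K) (hk : IsOfFinOrder k) : k ∈ lfRad K := by
  classical
  have : Finite {g : K | IsOfFinOrder g} := hfin.to_subtype
  have hconj : ∀ x : K, IsOfFinOrder (x * k * x⁻¹) := by
    intro x
    obtain ⟨n, hn, h⟩ := isOfFinOrder_iff_pow_eq_one.1 hk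
    refine isOfFinOrder_iff_pow_eq_one.2 ⟨n, hn, ?_⟩
    rw [conj_pow, h]
    simp
  have hq : Finite (K ⧸ centralizer ({k} : Set K)) := by
    apply Finite.of_injective (fun q : K ⧸ centralizer ({k} : Set K) =>
      (⟨q.out * k * q.out⁻¹, hconj _⟩ : {g : K | IsOfFinOrder g}))
    intro q q' h
    have h1 : q.out * k * q.out⁻¹ = q'.out * k * q'.out⁻¹ := congrArg Subtype.val h
    rw [← QuotientGroup.out_eq' q, ← QuotientGroup.out_eq' q', QuotientGroup.eq,
      mem_centralizer_singleton_iff]
    have h2 : k * (q.out⁻¹ * q'.out) = (q.out⁻¹ * q'.out) * k := by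
      calc k * (q.out⁻¹ * q'.out) = q.out⁻¹ * (q.out * k * q.out⁻¹) * q'.out := by group
        _ = q.out⁻¹ * (q'.out * k * q'.out⁻¹) * q'.out := by rw [h1]
        _ = (q.out⁻¹ * q'.out) * k := by group
    first
      | exact h2
      | exact h2.symm
  have hfi : (centralizer ({k} : Set K)).FiniteIndex := finiteIndex_of_finite_quotient
  refine mem_lfRad_of_comm hk hfi ?_
  intro h hh
  rw [mem_centralizer_singleton_iff] at hh
  first
    | exact hh
    | exact hh.symm

theorem isOfFinOrder_of_lfRad {K : Type} [Group K] {g : K} (hg : g ∈ lfRad K) :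
    IsOfFinOrder g := by
  classical
  rw [mem_lfRad] at hg
  have h1 := hg {g} (by
    simp only [Finset.coe_singleton]
    exact subset_normalClosure)
  exact isOfFinOrder_of_mem_finite h1 (subset_closure (by simp))

theorem t_RES : S_FNL → S_SSUB → S_LFA → S_RES := by
  intro hFNL hSSUB hLFA G _ hG H _ f hker hSh hInf
  have hSK : IsShunkov f.ker := hSSUB H f.ker f.ker.subtype f.ker.subtype_injective hSh
  by_cases hc : InfTor f.ker
  · obtain ⟨hl, -⟩ := shunkov_conclusion (Good.X hker) hSK hc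
    intro a ha
    have hfin : IsOfFinOrder a := orderOf_pos_iff.1 ha.pos
    have hn : ((lfRad f.ker).map f.ker.subtype).Normal := inferInstance
    refine ⟨(lfRad f.ker).map f.ker.subtype ⊔ zpowers a, ?_, ?_, ?_⟩
    · exact le_sup_right (a := (lfRad f.ker).map f.ker.subtype) (mem_zpowers a)
    · refine Set.Infinite.mono (s := ((lfRad f.ker).map f.ker.subtype : Set H)) ?_ ?_
      · intro x hx
        exact le_sup_left (b := zpowers a) hx
      · rw [coe_map]
        exact hl.image f.ker.subtype_injective.injOn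
    · refine hLFA H a _ hfin ?_ (isLocFin_lfRad.map f.ker.subtype)
      intro k hk
      have := hn.conj_mem k hk a⁻¹
      simpa using this
  · have hfin : {g : f.ker | IsOfFinOrder g}.Finite := Set.not_infinite.1 hc
    obtain ⟨T, hT⟩ : ∃ T : Subgroup H, T = (lfRad f.ker).map f.ker.subtype := ⟨_, rfl⟩
    have hTn : T.Normal := by rw [hT]; infer_instance
    have hTfin : (T : Set H).Finite := by
      rw [hT, coe_map]
      exact (hfin.subset (fun g hg => isOfFinOrder_of_lfRad hg)).image _
    have hTK : T ≤ f.ker := by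
      rw [hT]
      rintro x ⟨y, -, rfl⟩
      exact y.2
    have hTor : ∀ x ∈ f.ker, IsOfFinOrder x → x ∈ T := by
      intro x hx hxo
      rw [hT]
      refine ⟨⟨x, hx⟩, ?_, rfl⟩
      apply mem_lfRad_of_finite_tor hfin
      obtain ⟨n, hn, h⟩ := isOfFinOrder_iff_pow_eq_one.1 hxo
      exact isOfFinOrder_iff_pow_eq_one.2 ⟨n, hn, Subtype.ext (by simpa using h)⟩
    refine hFNL H T hTfin hSh hInf ?_
    intro g hg hg1
    obtain ⟨h, rfl⟩ := QuotientGroup.mk'_surjective T g
    have hho : IsOfFinOrder h := by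
      obtain ⟨n, hn, hh⟩ := isOfFinOrder_iff_pow_eq_one.1 hg
      have h1 : h ^ n ∈ T := by
        rw [← map_pow] at hh
        exact (QuotientGroup.eq_one_iff _).1 hh
      obtain ⟨m, hm, hh2⟩ := isOfFinOrder_iff_pow_eq_one.1 (isOfFinOrder_of_mem_finite hTfin h1)
      exact isOfFinOrder_iff_pow_eq_one.2 ⟨n * m, by positivity, by rw [pow_mul, hh2]⟩
    have hhT : h ∉ T := by
      intro hh
      exact hg1 ((QuotientGroup.eq_one_iff _).2 hh)
    have hfh : f h ≠ 1 := fun h1 => hhT (hTor h (MonoidHom.mem_ker.2 h1) hho)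
    obtain ⟨N₀, hN₀, hh0, hgood⟩ := hG (f h) hfh
    let φ : H ⧸ T →* G ⧸ N₀ := QuotientGroup.lift T ((QuotientGroup.mk' N₀).comp f) (by
      intro x hx
      have h1 : f x = 1 := MonoidHom.mem_ker.1 (hTK hx)
      simp [h1])
    refine ⟨φ.ker, inferInstance, ?_, hgood.comp (QuotientGroup.kerLift φ)
      (QuotientGroup.kerLift_injective φ)⟩
    intro hmem
    apply hh0
    have h1 : φ (QuotientGroup.mk' T h) = 1 := MonoidHom.mem_ker.1 hmem
    have h2 : φ (QuotientGroup.mk' T h) = QuotientGroup.mk' N₀ (f h) := rfl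
    rw [h2] at h1
    exact (QuotientGroup.eq_one_iff _).1 h1

end Pool.Agent.Helper36.SH
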